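import Pool.Agent.EQC.Stmts

/-! # Squad EQC, row EXT: adding dummy pairs -/

set_option autoImplicit false

open SimpleGraph Finset
open Pool.Agent.Helper51_Equitable (edges nbrs vertexSum nb IsEquitableProper Nice)

namespace Pool.Agent.EQC.H53

open Pool.Agent.EQC

theorem cnt_congr {α : Type} [Fintype α] {p q : α → Prop} (h : ∀ x, p x ↔ q x) :
    cnt p = cnt q := by
  have h1 : p = q := funext fun x => propext (h x)
  rw [h1]

theorem cnt_sum {α β : Type} [Fintype α] [Fintype β] (p : α ⊕ β → Prop) :
    cnt p = cnt (fun a => p (Sum.inl a)) + cnt (fun b => p (Sum.inr b)) := by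
  classical
  unfold cnt
  rw [Finset.card_filter, Finset.card_filter, Finset.card_filter, Fintype.sum_sum_type]

theorem cnt_true {α : Type} [Fintype α] : cnt (fun _ : α => True) = Fintype.card α := by
  classical
  unfold cnt
  rw [Finset.card_filter]
  simp

theorem cnt_false {α : Type} [Fintype α] : cnt (fun _ : α => False) = 0 := by
  classical
  unfold cnt
  rw [Finset.card_filter]
  simp

theorem cnt_all {α : Type} [Fintype α] {p : α → Prop} (h : ∀ x, p x) :
    cnt p = Fintype.card α := by
  rw [← cnt_true]
  exact cnt_congr fun x => ⟨fun _ => trivial, fun _ => h x⟩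

theorem cnt_none {α : Type} [Fintype α] {p : α → Prop} (h : ∀ x, ¬ p x) : cnt p = 0 := by
  rw [← cnt_false (α := α)]
  exact cnt_congr fun x => ⟨fun h' => h x h', fun h' => h'.elim⟩

theorem ext (dum : DumStmt) : ExtStmt := by
  classical
  intro V _ G D ι _ P nA nB hcard
  let R : Finset (Sym2 V) := edges G \ (univ.image P.e0 ∪ univ.image P.e1)
  have hR1 : ∀ e ∈ R, e ∈ edges G := fun e he => (Finset.mem_sdiff.1 he).1
  have hR0 : ∀ e ∈ R, ∀ i, e ≠ P.e0 i := fun e he i h =>
    (Finset.mem_sdiff.1 he).2 (Finset.mem_union_left _ (Finset.mem_image.2 ⟨i, mem_univ _, h.symm⟩))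
  have hR2 : ∀ e ∈ R, ∀ i, e ≠ P.e1 i := fun e he i h =>
    (Finset.mem_sdiff.1 he).2 (Finset.mem_union_right _ (Finset.mem_image.2 ⟨i, mem_univ _, h.symm⟩))
  have hRc : 2 * (nA + nB) + 2 * D ^ 2 ≤ R.card := by
    have h1 : (edges G).card ≤ R.card + (univ.image P.e0 ∪ univ.image P.e1).card := by
      have h2 : edges G ⊆ R ∪ (univ.image P.e0 ∪ univ.image P.e1) := by
        intro e he
        by_cases h : e ∈ univ.image P.e0 ∪ univ.image P.e1
        · exact Finset.mem_union_right _ h
        · exact Finset.mem_union_left _ (Finset.mem_sdiff.2 ⟨he, h⟩)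
      exact (Finset.card_le_card h2).trans (Finset.card_union_le _ _)
    have h3 : (univ.image P.e0 ∪ univ.image P.e1).card ≤ 2 * Fintype.card ι := by
      have h4 : (univ.image P.e0).card ≤ Fintype.card ι := Finset.card_image_le
      have h5 : (univ.image P.e1).card ≤ Fintype.card ι := Finset.card_image_le
      have h6 := Finset.card_union_le (univ.image P.e0) (univ.image P.e1)
      omega
    omega
  obtain ⟨f, g, hfg, hf, hg, hne, hlow⟩ := dum V G D (nA + nB) R hR1 hRc
  let z : Fin nA ⊕ Fin nB → Fin (nA + nB) := finSumFinEquiv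
  have hz : ∀ x y, z x = z y → x = y := fun x y h => finSumFinEquiv.injective h
  let Q : Prs G D (ι ⊕ (Fin nA ⊕ Fin nB)) :=
    { e0 := Sum.elim P.e0 (fun x => f (z x))
      e1 := Sum.elim P.e1 (fun x => g (z x))
      ty := Sum.elim P.ty (Sum.elim (fun _ => true) (fun _ => false))
      e0_mem := by
        rintro (i | x)
        · exact P.e0_mem i
        · exact hR1 _ (hfg (z x)).1
      e1_mem := by
        rintro (i | x)
        · exact P.e1_mem i
        · exact hR1 _ (hfg (z x)).2
      e0_inj := by
        rintro (i | x) (j | y) h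
        · exact congrArg Sum.inl (P.e0_inj i j h)
        · exact absurd h.symm (hR0 _ (hfg (z y)).1 i)
        · exact absurd h (hR0 _ (hfg (z x)).1 j)
        · exact congrArg Sum.inr (hz _ _ (hf _ _ h))
      e1_inj := by
        rintro (i | x) (j | y) h
        · exact congrArg Sum.inl (P.e1_inj i j h)
        · exact absurd h.symm (hR2 _ (hfg (z y)).2 i)
        · exact absurd h (hR2 _ (hfg (z x)).2 j)
        · exact congrArg Sum.inr (hz _ _ (hg _ _ h))
      e01 := by
        rintro (i | x) (j | y) h
        · exact P.e01 i j h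
        · exact hR0 _ (hfg (z y)).2 i h.symm
        · exact hR2 _ (hfg (z x)).1 j h
        · exact hne _ _ h
      low := by
        intro u w huw hdg hu h2
        have hw : ¬ Hi G D w := by
          intro h
          apply hu
          unfold Hi at h ⊢
          rw [hdg]
          exact h
        obtain ⟨e, he, hue, hwe, h01, h10⟩ := P.low u w huw hdg hu h2
        refine ⟨e, he, hue, hwe, ?_, ?_⟩
        · rintro (i | x) h
          · exact h01 i h
          · intro hwg
            exact hlow (z x) u (by rw [← show e = f (z x) from h]; exact hue) w hwg hu hw huw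
        · rintro (i | x) h
          · exact h10 i h
          · intro hwf
            exact hlow (z x) w hwf u (by rw [← show e = g (z x) from h]; exact hue) hw hu huw.symm }
  refine ⟨ι ⊕ (Fin nA ⊕ Fin nB), inferInstance, Q, Sum.inl, fun i => ⟨rfl, rfl, rfl⟩, ?_, ?_⟩
  · rw [cnt_sum, cnt_sum]
    have h1 : cnt (fun a : Fin nA => Q.ty (Sum.inr (Sum.inl a)) = true) = nA :=
      (cnt_all fun x => rfl).trans (Fintype.card_fin nA)
    have h2 : cnt (fun a : Fin nB => Q.ty (Sum.inr (Sum.inr a)) = true) = 0 :=
      cnt_none fun x => Bool.false_ne_true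
    rw [h1, h2]
    rfl
  · rw [cnt_sum, cnt_sum]
    have h1 : cnt (fun a : Fin nA => Q.ty (Sum.inr (Sum.inl a)) = false) = 0 :=
      cnt_none fun x h => Bool.false_ne_true h.symm
    have h2 : cnt (fun a : Fin nB => Q.ty (Sum.inr (Sum.inr a)) = false) = nB :=
      (cnt_all fun x => rfl).trans (Fintype.card_fin nB)
    rw [h1, h2, zero_add]
    rfl

end Pool.Agent.EQC.H53
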